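import Pool.Agent.R593.Eq.Forced
import Pool.Agent.R593.Eq.Zfc

/-!
# `non(E) < b_b^eq` and `d_b^eq < cov(E)` for all divergent `b`

For sets `I` and `K` with `ℵ₀ < #K < #I`, the forcing `Random I` which adds `#I` many random reals
forces the combinatorial sentence `Phi K` (`PhiHolds (Random I) K` is its literal translation into
the forcing language), and this sentence implies that
`non(E) ≤ #K < b_b^eq` and `d_b^eq ≤ #K < cov(E)` for every `b` such that `∑ 1 / b k` diverges.

Idea. Given a divergent `b` in the extension there is a partition of `ω` into intervals `I_n` in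
the ground model such that the sum of `1 / b k` over `k ∈ I_n` is at least `2 n` for almost all
`n`: an interval with this property with probability at least `1 - 2^(-n)` exists in the ground
model. For a random `h ∈ ∏ b` the probability that `h` and a given `f` agree nowhere on `I_n` is
at most `exp (-n)`. So a random `h` bounds each `f` of which it is independent, and small families
depend on few of the random reals.
-/

set_option autoImplicit false

namespace Pool.Agent.Results.MP_0fb2ec_lc.DivergentEq

open Cardinal Filter Pool.Agent.TH773.PSet Pool.Agent.R593.Rnd Pool.Agent.R593.Eq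

/-- (A) For all sets `I` and `K` with `ℵ₀ < #K < #I`, all conditions of the random forcing
`Random I` force `Phi K`. (B) Whenever `Phi K` holds, `non(E) ≤ #K < cov(E)` and for all `b` such
that `∑ 1 / b k` diverges: every subset of `∏ b` with at most `#K` elements is bounded,
`d_b^eq ≤ #K`, hence `d_b^eq < cov(E)`; and if `b k ≥ 2` for almost all `k`, which is the case in
which `∏ b` itself may be unbounded, then `∏ b` is unbounded and `non(E) ≤ #K < b_b^eq`. -/
theorem result :
    (∀ I K : Type, ℵ₀ < #K → #K < #I →
      Nonempty (Random I) ∧ ∀ p : Random I, p ∈ PhiHolds (Random I) K) ∧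
    (∀ K : Type, Phi K → nonE ≤ #K ∧ #K < covE ∧ ∀ b : ℕ → ℕ, Divergent b →
      (∀ F ⊆ Prd b, #F ≤ #K → Bdd b F) ∧ deq b ≤ #K ∧ deq b < covE ∧
        ((∀ᶠ k in atTop, 2 ≤ b k) → ¬ Bdd b (Prd b) ∧ #K < beq b ∧ nonE < beq b)) := by
  refine ⟨fun I K hK hKI => ⟨⟨⟨Set.univ, MeasurableSet.univ, ?_⟩⟩, phiHolds hK hKI⟩,
    fun K h => ?_⟩
  · rw [MeasureTheory.measure_univ]
    exact one_ne_zero
  · obtain ⟨h1, h2, h3, h4⟩ := h
    refine ⟨nonE_le h1, lt_covE h2, fun b hb => ⟨fun F hF hFK => bdd_of h3 hb hF hFK,
      deq_le h4 hb, (deq_le h4 hb).trans_lt (lt_covE h2), fun hb2 => ⟨not_bdd_prd hb.1 hb2,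
        lt_beq h3 hb hb2, (nonE_le h1).trans_lt (lt_beq h3 hb hb2)⟩⟩⟩

end Pool.Agent.Results.MP_0fb2ec_lc.DivergentEq
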